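import Pool.Agent.K1H79.TW.Stm

/-! # TW-B: the Taylor coefficients of a Dirichlet series with a simple pole (for helper79, project TW) -/

set_option autoImplicit false

namespace Pool.Agent.K1H4.TW

open Pool.Agent.K1H79.TW Complex Metric

lemma nhds_pos : {s : ℂ | 0 < s.re} ∈ nhds (1 : ℂ) :=
  (isOpen_lt continuous_const Complex.continuous_re).mem_nhds (by simp)

lemma re_pos_of_mem {s : ℂ} (hs : ‖s - 2‖ ≤ 3 / 2) : 0 < s.re := by
  have h := (Complex.abs_re_le_norm (s - 2)).trans hs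
  have h2 : (s - 2).re = s.re - 2 := by simp
  rw [h2, abs_le] at h
  linarith [h.1]

lemma h_diff (g : ℂ → ℂ) (hg : DifferentiableOn ℂ g {s | 0 < s.re}) :
    DifferentiableOn ℂ (dslope g 1) {s | 0 < s.re} :=
  (Complex.differentiableOn_dslope nhds_pos).2 hg

lemma h_bound (g : ℂ → ℂ) (G : ℝ) (hg : DifferentiableOn ℂ g {s | 0 < s.re})
    (hG : ∀ s : ℂ, ‖s - 2‖ ≤ 3 / 2 → ‖g s‖ ≤ G) (s : ℂ) (hs : ‖s - 2‖ ≤ 3 / 2) :
    ‖dslope g 1 s‖ ≤ 4 * G := by
  have hd : DiffContOnCl ℂ (dslope g 1) (ball (2 : ℂ) (3 / 2)) := by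
    refine ((h_diff g hg).mono fun z hz => ?_).diffContOnCl_ball (U := closedBall 2 (3/2)) subset_rfl
    rw [mem_closedBall, dist_eq_norm] at hz
    exact re_pos_of_mem hz
  refine Complex.norm_le_of_forall_mem_frontier_norm_le isBounded_ball hd (fun z hz => ?_) (z := s) ?_
  · rw [frontier_ball _ (by norm_num), mem_sphere, dist_eq_norm] at hz
    have h1 : (1 : ℝ) / 2 ≤ ‖z - 1‖ := by
      have h := norm_sub_norm_le (z - 2) (-1)
      have h' : z - 2 - (-1) = z - 1 := by ring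
      rw [h', hz, norm_neg, norm_one] at h
      linarith
    have h0 : z ≠ 1 := by
      rintro rfl
      simp at h1
      linarith
    have hg1 := hG z hz.le
    have hg2 := hG 1 (by norm_num)
    rw [dslope_of_ne _ h0, slope_def_module, norm_smul, norm_inv]
    have h3 : ‖g z - g 1‖ ≤ 2 * G := (norm_sub_le _ _).trans (by linarith)
    have h4 : ‖z - 1‖⁻¹ ≤ 2 := by
      rw [inv_le_comm₀ (by linarith) (by norm_num)]
      linarith
    calc ‖z - 1‖⁻¹ * ‖g z - g 1‖ ≤ 2 * (2 * G) := mul_le_mul h4 h3 (norm_nonneg _) (by norm_num)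
      _ = 4 * G := by ring
  · rw [closure_ball _ (by norm_num), mem_closedBall, dist_eq_norm]
    exact hs

lemma h_cauchy (g : ℂ → ℂ) (G : ℝ) (hg : DifferentiableOn ℂ g {s | 0 < s.re})
    (hG : ∀ s : ℂ, ‖s - 2‖ ≤ 3 / 2 → ‖g s‖ ≤ G) (s0 : ℝ) (k : ℕ) (h1 : 15 / 8 ≤ s0) (h2 : s0 ≤ 2) :
    ‖iteratedDeriv k (dslope g 1) (s0 : ℂ)‖ ≤ k.factorial * (4 * G) / (11 / 8) ^ k := by
  have hin : ∀ z : ℂ, ‖z - s0‖ ≤ 11 / 8 → ‖z - 2‖ ≤ 3 / 2 := fun z hz => by
    have h : z - 2 = (z - s0) + (s0 - 2) := by ring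
    have h' : ‖(s0 : ℂ) - 2‖ ≤ 1 / 8 := by
      have : (s0 : ℂ) - 2 = ((s0 - 2 : ℝ) : ℂ) := by push_cast; ring
      rw [this, Complex.norm_real, Real.norm_eq_abs, abs_le]
      constructor <;> linarith
    rw [h]
    exact (norm_add_le _ _).trans (by linarith)
  refine Complex.norm_iteratedDeriv_le_of_forall_mem_sphere_norm_le (n := k) (by norm_num) ?_ fun z hz => ?_
  · refine ((h_diff g hg).mono fun z hz => ?_).diffContOnCl_ball (U := closedBall (s0 : ℂ) (11/8)) subset_rfl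
    rw [mem_closedBall, dist_eq_norm] at hz
    exact re_pos_of_mem (hin z hz)
  · rw [mem_sphere, dist_eq_norm] at hz
    exact h_bound g G hg hG z (hin z hz.le)

lemma iter_logMul (f : ℕ → ℂ) (k m : ℕ) : (LSeries.logMul^[k] f) m = Complex.log m ^ k * f m := by
  induction k with
  | zero => simp
  | succ k ih =>
    rw [Function.iterate_succ', Function.comp_apply, LSeries.logMul, ih]
    ring

lemma iter_inv (k : ℕ) (s : ℂ) :
    iteratedDeriv k (fun z : ℂ => (z - 1)⁻¹) s = (-1) ^ k * k.factorial * ((s - 1) ^ (k + 1))⁻¹ := by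
  have h := congrFun (iter_deriv_inv_linear_sub (𝕜 := ℂ) k 1 1) s
  simp only [one_mul, one_pow, mul_one] at h
  rw [iteratedDeriv_eq_iterate, h]
  congr 1
  rw [show (-1 - k : ℤ) = -((k + 1 : ℕ) : ℤ) by push_cast; ring, zpow_neg, zpow_natCast]

theorem t_TC : S_TC := by
  intro g a G ρ hg ha hsum hg1 hG s0 k hs1 hs2
  set f : ℕ → ℂ := fun m => (a m : ℂ) with hf
  have hterm : ∀ (F : ℕ → ℂ) (s : ℂ), s ≠ 0 → ∀ m, LSeries.term F s m = F m * (m : ℂ) ^ (-s) := by
    intro F s hs m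
    rw [LSeries.term_of_ne_zero' hs, Complex.cpow_neg, div_eq_mul_inv]
  have hne : ∀ s : ℂ, 1 < s.re → s ≠ 0 := by
    rintro s hs rfl
    simp at hs
    linarith
  have hL : ∀ s : ℂ, 1 < s.re → LSeriesHasSum f s (g s / (s - 1)) := by
    intro s hs
    have h := hsum s hs
    unfold LSeriesHasSum
    convert h using 1
    funext m
    exact hterm f s (hne s hs) m
  have habs : LSeries.abscissaOfAbsConv f ≤ 1 := by
    refine LSeries.abscissaOfAbsConv_le_of_forall_lt_LSeriesSummable (x := 1) fun y hy => ?_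
    exact (hL y (by simpa using hy)).LSeriesSummable
  have hlt : LSeries.abscissaOfAbsConv f < ((s0 : ℂ)).re := by
    refine habs.trans_lt ?_
    rw [Complex.ofReal_re]
    exact_mod_cast (by linarith : (1 : ℝ) < s0)
  have hs0 : (s0 : ℂ) ≠ 0 := by
    exact_mod_cast (by linarith : s0 ≠ 0)
  have hs01 : (s0 : ℂ) - 1 ≠ 0 := by
    intro h
    have : (s0 : ℂ) = ((1 : ℝ) : ℂ) := by push_cast; linear_combination h
    have := Complex.ofReal_injective this
    linarith
  -- the terms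
  have hcast : ∀ m : ℕ, LSeries.term (LSeries.logMul^[k] f) (s0 : ℂ) m =
      ((a m * (m : ℝ) ^ (-s0) * Real.log m ^ k : ℝ) : ℂ) := by
    intro m
    rw [hterm _ _ hs0, iter_logMul, Complex.ofReal_mul, Complex.ofReal_mul, Complex.ofReal_pow,
      Complex.ofReal_cpow (Nat.cast_nonneg m), Complex.ofReal_log (Nat.cast_nonneg m),
      Complex.ofReal_natCast, Complex.ofReal_neg]
    simp only [hf]
    ring
  have hsm : LSeriesSummable (LSeries.logMul^[k] f) (s0 : ℂ) := by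
    refine LSeriesSummable_of_abscissaOfAbsConv_lt_re ?_
    rw [LSeries.absicssaOfAbsConv_logPowMul]
    exact hlt
  have hS : Summable (fun m : ℕ => a m * (m : ℝ) ^ (-s0) * Real.log m ^ k) := by
    have h := hsm
    unfold LSeriesSummable at h
    rw [show LSeries.term (LSeries.logMul^[k] f) (s0 : ℂ) = fun m : ℕ =>
      ((a m * (m : ℝ) ^ (-s0) * Real.log m ^ k : ℝ) : ℂ) from funext hcast] at h
    exact Complex.summable_ofReal.1 h
  refine ⟨hS, ?_⟩
  have hLS : LSeries (LSeries.logMul^[k] f) (s0 : ℂ) =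
      ((∑' m : ℕ, a m * (m : ℝ) ^ (-s0) * Real.log m ^ k : ℝ) : ℂ) := by
    rw [Complex.ofReal_tsum]
    unfold LSeries
    exact tsum_congr hcast
  -- the identity near `s0`
  have hev : dslope g 1 =ᶠ[nhds (s0 : ℂ)] (fun z => LSeries f z - (ρ : ℂ) * (z - 1)⁻¹) := by
    have hop : IsOpen {z : ℂ | 1 < z.re} := isOpen_lt continuous_const Complex.continuous_re
    filter_upwards [hop.mem_nhds (show (s0 : ℂ) ∈ {z : ℂ | 1 < z.re} by
      show 1 < ((s0 : ℂ)).re; rw [Complex.ofReal_re]; linarith)] with z hz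
    have hz : 1 < z.re := hz
    have hz1 : z ≠ 1 := by
      rintro rfl
      simp at hz
    have hz2 : z - 1 ≠ 0 := sub_ne_zero.2 hz1
    rw [dslope_of_ne _ hz1, slope_def_module, (hL z hz).LSeries_eq, hg1, smul_eq_mul]
    field_simp
  have hc1 : ContDiffAt ℂ k (LSeries f) (s0 : ℂ) :=
    ((LSeries_analyticOnNhd f) _ hlt).contDiffAt
  have hc2 : ContDiffAt ℂ k (fun z : ℂ => (ρ : ℂ) * (z - 1)⁻¹) (s0 : ℂ) :=
    contDiffAt_const.mul ((contDiffAt_id.sub contDiffAt_const).inv hs01)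
  have hder : iteratedDeriv k (dslope g 1) (s0 : ℂ) = (-1) ^ k *
      ((((∑' m : ℕ, a m * (m : ℝ) ^ (-s0) * Real.log m ^ k) -
        k.factorial * (ρ / (s0 - 1) ^ (k + 1)) : ℝ)) : ℂ) := by
    rw [hev.iteratedDeriv_eq, iteratedDeriv_fun_sub hc1 hc2, iteratedDeriv_const_mul_field,
      LSeries_iteratedDeriv k hlt, hLS, iter_inv]
    push_cast
    ring
  have hb := h_cauchy g G hg hG s0 k hs1 hs2
  rw [hder, norm_mul, norm_pow, norm_neg, norm_one, one_pow, one_mul, Complex.norm_real,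
    Real.norm_eq_abs] at hb
  have hfac : (0 : ℝ) < k.factorial := by exact_mod_cast k.factorial_pos
  have he : (∑' m : ℕ, a m * (m : ℝ) ^ (-s0) * Real.log m ^ k) / (k.factorial : ℝ) -
      ρ / (s0 - 1) ^ (k + 1) = ((∑' m : ℕ, a m * (m : ℝ) ^ (-s0) * Real.log m ^ k) -
        k.factorial * (ρ / (s0 - 1) ^ (k + 1))) / k.factorial := by
    field_simp
  rw [he, abs_div, abs_of_pos hfac, div_le_iff₀ hfac]
  refine hb.trans (le_of_eq ?_)
  rw [show ((8 : ℝ) / 11) ^ k = ((11 / 8) ^ k)⁻¹ by rw [← inv_pow]; norm_num]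
  ring

end Pool.Agent.K1H4.TW
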